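import Pool.Agent.W455.EM.Stm

/-!
# Project EM, part S2e: dummy vertices
-/

set_option autoImplicit false

namespace Pool.Agent.W304.EM.S2e

open Finset Pool.Agent.W455.EM

theorem NN_sum_le {V : Type} [Fintype V] (D : ℕ) (w : V → ℝ) (j : ℕ) (T : ℝ) :
    NN (Sum.elim w (fun _ : Fin D => (0 : ℝ))) j T ≤
      NN w j T + (((Fintype.card V : ℝ) + D) ^ j - (Fintype.card V : ℝ) ^ j) := by
  classical
  let f : (Fin j → V) → (Fin j → V ⊕ Fin D) := fun t i => Sum.inl (t i)
  have hf : Function.Injective f := by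
    intro t t' h
    funext i
    exact Sum.inl_injective (congrFun h i)
  let g : (Fin j → V ⊕ Fin D) → ℝ := fun t =>
    if ∑ i, (Sum.elim w (fun _ : Fin D => (0 : ℝ))) (t i) < T then (1 : ℝ) else 0
  have hg1 : ∀ t, g t ≤ 1 := by
    intro t
    simp only [g]
    split_ifs <;> norm_num
  have h1 : NN (Sum.elim w (fun _ : Fin D => (0 : ℝ))) j T =
      ∑ t ∈ univ.image f, g t + ∑ t ∈ (univ.image f)ᶜ, g t := by
    rw [Finset.sum_add_sum_compl]
    rfl
  have h2 : ∑ t ∈ univ.image f, g t = NN w j T := by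
    rw [Finset.sum_image (fun a _ b _ h => hf h)]
    rfl
  have h3 : ∑ t ∈ (univ.image f)ᶜ, g t ≤ ((univ.image f)ᶜ.card : ℝ) := by
    calc ∑ t ∈ (univ.image f)ᶜ, g t ≤ ∑ t ∈ (univ.image f)ᶜ, (1 : ℝ) :=
          Finset.sum_le_sum fun t _ => hg1 t
      _ = _ := by simp
  have h4 : ((univ.image f)ᶜ.card : ℝ) =
      ((Fintype.card V : ℝ) + D) ^ j - (Fintype.card V : ℝ) ^ j := by
    have h5 := Finset.card_add_card_compl (univ.image f)
    have h6 : (univ.image f).card = Fintype.card V ^ j := by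
      rw [Finset.card_image_of_injective _ hf, Finset.card_univ, Fintype.card_fun, Fintype.card_fin]
    have h7 : Fintype.card (Fin j → V ⊕ Fin D) = (Fintype.card V + D) ^ j := by
      rw [Fintype.card_fun, Fintype.card_fin, Fintype.card_sum, Fintype.card_fin]
    rw [h6, h7] at h5
    have h8 : ((Fintype.card V ^ j + (univ.image f)ᶜ.card : ℕ) : ℝ) =
        (((Fintype.card V + D) ^ j : ℕ) : ℝ) := by rw [h5]
    push_cast at h8
    linarith
  rw [h1, h2]
  linarith

theorem main : S_S2 → S_S2e := by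
  intro hS V _ _ w j T ε hw hε hεm hsum hT
  set m : ℝ := (Fintype.card V : ℝ) with hm
  have hm0 : 0 < m := by
    rw [hm]
    exact_mod_cast Fintype.card_pos
  set D : ℕ := ⌈ε * m⌉₊ with hD
  have hD1 : ε * m ≤ D := Nat.le_ceil _
  have hD2 : (D : ℝ) < ε * m + 1 := Nat.ceil_lt_add_one (by positivity)
  have hS2 := hS (V ⊕ Fin D) (Sum.elim w (fun _ : Fin D => (0 : ℝ))) j T
    (by
      rintro (v | v)
      · exact hw v
      · exact le_refl _)
    (by
      rw [Fintype.sum_sum_type]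
      simp only [Sum.elim_inl, Sum.elim_inr, Finset.sum_const_zero, add_zero]
      rw [Fintype.card_sum, Fintype.card_fin]
      push_cast
      linarith) hT
  rw [Fintype.card_sum, Fintype.card_fin] at hS2
  push_cast at hS2
  have hN := NN_sum_le D w j T
  rw [← hm] at hN hS2
  have hj : (0 : ℝ) ≤ j := Nat.cast_nonneg j
  have hT1 : (1 : ℝ) ≤ T := by linarith
  have hT2 : 0 ≤ 1 - 1 / T := by
    have : 1 / T ≤ 1 := by
      rw [div_le_one (by linarith)]
      exact hT1
    linarith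
  have hT3 : 1 - 1 / T ≤ 1 := by
    have : 0 ≤ 1 / T := by positivity
    linarith
  have hT4 : (1 - 1 / T) ^ j ≤ 1 := pow_le_one₀ hT2 hT3
  have hpow : (m + D) ^ j ≤ m ^ j * (1 + 2 * ε) ^ j := by
    rw [← mul_pow]
    apply pow_le_pow_left₀ (by positivity)
    nlinarith
  nlinarith [mul_le_mul_of_nonneg_right hpow (sub_nonneg.mpr hT4)]

end Pool.Agent.W304.EM.S2e
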